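import Pool.Agent.Q59.AC.STEP

/-!
# Project AC: the limit semigroup (jobs LENINT, WC, CONV, SG, ACL, WCL)
-/

set_option autoImplicit false

open MeasureTheory Topology Filter
open scoped ENNReal NNReal

noncomputable section

namespace Pool.Agent.Q59.AC

open Pool.Agent.Q80.AC

variable {H : Type} [Group H] [MeasurableSpace H] [MeasurableMul₂ H]

/-! ### Integrals of length functions -/

theorem hasSum_kw' (a t b : ℝ) :
    HasSum (fun k : ℕ => (k : ℝ) * (w a t k * b ^ (k - 1))) (t * Real.exp ((b - a) * t)) := by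
  rw [← hasSum_nat_add_iff' 1]
  have h := (hasSum_w a t b).mul_left t
  have e : (fun k : ℕ => ((k + 1 : ℕ) : ℝ) * (w a t (k + 1) * b ^ (k + 1 - 1))) =
      fun k : ℕ => t * (w a t k * b ^ k) := by
    funext k
    unfold w
    rw [Nat.factorial_succ, pow_succ, Nat.add_sub_cancel]
    push_cast
    have h1 : (k : ℝ) + 1 ≠ 0 := by positivity
    field_simp
  rw [e]
  simpa using h

theorem int_bdC {μ : Measure H} [IsFiniteMeasure μ] {f : H → ℝ} {C : ℝ} (hf : Measurable f)
    (hf1 : ∀ x, |f x| ≤ C) : Integrable f μ := Integrable.of_bound hf.aestronglyMeasurable C (ae_of_all _ fun x => hf1 x)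

theorem len_pw (σ : Measure H) [IsFiniteMeasure σ] {L : H → ℝ} (hL : Measurable L)
    (hL2 : ∀ x, 0 ≤ L x ∧ L x ≤ 2) (hL1 : L 1 = 0) (hLs : ∀ x y, L (x * y) ≤ L x + L y) (k : ℕ) :
    ∫ x, L x ∂(pw σ k) ≤ k * (σ.real Set.univ ^ (k - 1) * ∫ x, L x ∂σ) := by
  have hb : ∀ x, |L x| ≤ 2 := fun x => by rw [abs_of_nonneg (hL2 x).1]; exact (hL2 x).2
  induction k with
  | zero =>
    rw [pw, integral_dirac' _ _ hL.stronglyMeasurable, hL1]
    simp
  | succ k ih =>
    have h1 := pw_fin σ k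
    have h2 := pw_fin σ (k + 1)
    rw [pw] at h2 ⊢
    rw [integral_mconv (int_bdC hL hb)]
    have h3 : ∀ x, ∫ y, L (x * y) ∂(pw σ k) ≤ σ.real Set.univ ^ k * L x + ∫ y, L y ∂(pw σ k) := by
      intro x
      have h4 : ∫ y, L (x * y) ∂(pw σ k) ≤ ∫ y, (L x + L y) ∂(pw σ k) :=
        integral_mono (int_bdC (hL.comp (measurable_const_mul x)) fun y => hb _)
          ((integrable_const _).add (int_bdC hL hb)) fun y => hLs x y
      rw [integral_add (integrable_const _) (int_bdC hL hb), integral_const, pw_real, smul_eq_mul] at h4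
      exact h4
    have h5 : Integrable (fun x => ∫ y, L (x * y) ∂(pw σ k)) σ := by
      have h6 := (integrable_mconv_iff (μ := σ) (ν := pw σ k) hL.aestronglyMeasurable).1 (int_bdC hL hb)
      refine h6.2.congr (ae_of_all _ fun x => ?_)
      simp only
      refine integral_congr_ae (ae_of_all _ fun y => ?_)
      simp only [Real.norm_eq_abs]
      exact abs_of_nonneg (hL2 _).1
    have h7 : ∫ x, (∫ y, L (x * y) ∂(pw σ k)) ∂σ ≤ ∫ x, (σ.real Set.univ ^ k * L x + ∫ y, L y ∂(pw σ k)) ∂σ :=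
      integral_mono h5 (((int_bdC hL hb).const_mul _).add (integrable_const _)) h3
    rw [integral_add ((int_bdC hL hb).const_mul _) (integrable_const _), integral_const_mul, integral_const,
      smul_eq_mul] at h7
    refine h7.trans ?_
    rw [Nat.add_sub_cancel]
    have ha : 0 ≤ σ.real Set.univ := measureReal_nonneg
    have h8 := mul_le_mul_of_nonneg_left ih ha
    have h9 : σ.real Set.univ * (k * (σ.real Set.univ ^ (k - 1) * ∫ x, L x ∂σ)) =
        k * (σ.real Set.univ ^ k * ∫ x, L x ∂σ) := by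
      rcases k with _ | k
      · simp
      · rw [Nat.add_sub_cancel, pow_succ]
        ring
    rw [h9] at h8
    push_cast
    linarith

/-- job AC-LENINT -/
theorem t_LENINT : S_LENINT := by
  intro H _ _ _ σ _ L hL hL2 hL1 hLs t ht
  have hb : ∀ x, |L x| ≤ 2 := fun x => by rw [abs_of_nonneg (hL2 x).1]; exact (hL2 x).2
  have h1 := ser_int σ (σ.real Set.univ) ht hL hb
  have h2 := (hasSum_kw' (σ.real Set.univ) t (σ.real Set.univ)).mul_right (∫ x, L x ∂σ)
  rw [sub_self, zero_mul, Real.exp_zero, mul_one] at h2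
  refine hasSum_le (fun k => ?_) h1 h2
  have h3 := mul_le_mul_of_nonneg_left (len_pw σ hL hL2 hL1 hLs k) (w_nonneg (a := σ.real Set.univ) ht k)
  refine h3.trans (le_of_eq ?_)
  ring

/-- job AC-WC -/
theorem t_WC : S_WC := by
  intro H _ _ _ _ _ _ _ _ L hLc hL2 hLsep μ hμ hC f hf hf0
  obtain ⟨M, hM⟩ : ∃ M : ℝ, ∀ x, ‖f x‖ ≤ M :=
    ⟨_, fun x => (⟨⟨f, hf⟩, hf0⟩ : ZeroAtInftyContinuousMap H ℂ).toBCF.norm_coe_le_norm x⟩
  have hM0 : 0 ≤ M := (norm_nonneg _).trans (hM 1)
  rw [Metric.tendsto_nhdsWithin_nhds]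
  intro ε hε
  have hW : {x : H | ‖f x - f 1‖ < ε / 2} ∈ 𝓝 (1 : H) := by
    have h1 : Tendsto (fun x => ‖f x - f 1‖) (𝓝 1) (𝓝 ‖f 1 - f 1‖) :=
      ((hf.sub continuous_const).norm).tendsto 1
    rw [sub_self, norm_zero] at h1
    exact h1.eventually (gt_mem_nhds (by positivity))
  obtain ⟨j, hj⟩ := hLsep _ hW
  obtain ⟨C, hCj⟩ := hC j
  have key : ∀ t : ℝ, 0 ≤ t → ‖∫ x, f x ∂(μ t) - f 1‖ ≤ ε / 2 + 2 * M * (C * t) := by
    intro t ht
    have := hμ t ht
    have hfi : Integrable f (μ t) := Integrable.of_bound hf.aestronglyMeasurable M (ae_of_all _ hM)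
    have hLi : Integrable (L j) (μ t) := Integrable.of_bound (hLc j).aestronglyMeasurable 2 (ae_of_all _ fun x => by
      rw [Real.norm_of_nonneg (hL2 j x).1]
      exact (hL2 j x).2)
    have h1 : ∫ x, f x ∂(μ t) - f 1 = ∫ x, (f x - f 1) ∂(μ t) := by
      rw [integral_sub hfi (integrable_const _), integral_const]
      simp
    rw [h1]
    refine (norm_integral_le_integral_norm _).trans ?_
    have h2 : ∫ x, ‖f x - f 1‖ ∂(μ t) ≤ ∫ x, (ε / 2 + 2 * M * L j x) ∂(μ t) := by
      refine integral_mono (hfi.sub (integrable_const _)).norm ((integrable_const _).add (hLi.const_mul _)) fun x => ?_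
      simp only
      by_cases hx : x ∈ {x : H | ‖f x - f 1‖ < ε / 2}
      · have h3 : 0 ≤ 2 * M * L j x := mul_nonneg (by positivity) (hL2 j x).1
        have h4 : ‖f x - f 1‖ < ε / 2 := hx
        linarith
      · have h3 := hj x hx
        have h4 : ‖f x - f 1‖ ≤ 2 * M := (norm_sub_le _ _).trans (by linarith [hM x, hM 1])
        have h5 : 2 * M * 1 ≤ 2 * M * L j x := mul_le_mul_of_nonneg_left h3 (by positivity)
        linarith
    refine h2.trans ?_
    rw [integral_add (integrable_const _) (hLi.const_mul _), integral_const_mul, integral_const, probReal_univ, one_smul]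
    have h6 := hCj t ht
    gcongr
  refine ⟨ε / (4 * (M * |C| + 1)), by positivity, fun {t} ht htd => ?_⟩
  have ht0 : 0 < t := ht
  rw [dist_zero_right, Real.norm_of_nonneg ht0.le] at htd
  rw [dist_eq_norm]
  refine (key t ht0.le).trans_lt ?_
  have h1 : M * (C * t) ≤ (M * |C| + 1) * t := by
    have h2 : M * (C * t) ≤ M * (|C| * t) := by gcongr; exact le_abs_self C
    nlinarith
  have h3 : (M * |C| + 1) * t < ε / 4 := by
    rw [lt_div_iff₀ (by positivity)] at htd
    linarith
  linarith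

end Pool.Agent.Q59.AC
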