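import Pool.Agent.Q80.AC.Stm

/-!
# Project AC: completeness for the total variation distance (job LIM)
-/

set_option autoImplicit false

open MeasureTheory Topology Filter
open scoped ENNReal NNReal

noncomputable section

namespace Pool.Agent.Q59.AC

open Pool.Agent.Q80.AC

/-- job AC-LIM -/
theorem t_LIM : S_LIM := by
  intro X _ μ hμ c hc0 hc hTV
  classical
  set κ : Measure X := (Measure.sum μ).toFinite with hκ
  have hac : ∀ n, μ n ≪ κ := fun n =>
    (Measure.le_sum μ n).absolutelyContinuous.trans (absolutelyContinuous_toFinite _)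
  set g : ℕ → X → ℝ := fun n x => ((μ n).rnDeriv κ x).toReal with hg
  have hgm : ∀ n, Measurable (g n) := fun n => (Measure.measurable_rnDeriv _ _).ennreal_toReal
  have hgi : ∀ n, Integrable (g n) κ := fun n => Measure.integrable_toReal_rnDeriv
  have hg0 : ∀ n x, 0 ≤ g n x := fun n x => ENNReal.toReal_nonneg
  have hint : ∀ n (f : X → ℝ), ∫ x, g n x * f x ∂κ = ∫ x, f x ∂(μ n) := fun n f => by
    simpa [smul_eq_mul] using integral_rnDeriv_smul (hac n) (f := f)
  have hmul : ∀ u : X → ℝ, Integrable u κ → ∀ f : X → ℝ, Measurable f → (∀ x, |f x| ≤ 1) →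
      Integrable (fun x => u x * f x) κ := fun u hu f hf hf1 =>
    hu.mono (hu.aestronglyMeasurable.mul hf.aestronglyMeasurable) (ae_of_all _ fun x => by
      rw [norm_mul]
      exact mul_le_of_le_one_right (norm_nonneg _) (hf1 x))
  have hd : ∀ n, ∫ x, |g n x - g (n + 1) x| ∂κ ≤ c n := by
    intro n
    set s : X → ℝ := fun x => if g n x ≤ g (n + 1) x then 1 else -1 with hs
    have hsm : Measurable s :=
      Measurable.ite (measurableSet_le (hgm _) (hgm _)) measurable_const measurable_const
    have hs1 : ∀ x, |s x| ≤ 1 := fun x => by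
      simp only [hs]
      split_ifs <;> simp
    have h1 := hTV n s hsm hs1
    rw [← hint, ← hint, ← integral_sub (hmul _ (hgi _) _ hsm hs1) (hmul _ (hgi _) _ hsm hs1)] at h1
    refine le_trans (le_of_eq ?_) ((le_abs_self _).trans h1)
    refine integral_congr_ae (ae_of_all _ fun x => ?_)
    simp only [hs]
    split_ifs with h
    · rw [abs_of_nonpos (by linarith)]
      ring
    · rw [abs_of_pos (by linarith)]
      ring
  set G : ℕ → Lp ℝ 1 κ := fun n => (hgi n).toL1 (g n) with hG
  have hdist : ∀ n, dist (G n) (G n.succ) ≤ c n := by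
    intro n
    rw [dist_eq_norm, hG]
    simp only
    rw [← Integrable.toL1_sub, L1.norm_of_fun_eq_integral_norm]
    exact hd n
  obtain ⟨L, hL⟩ := cauchySeq_tendsto_of_complete (cauchySeq_of_dist_le_of_summable c hdist hc)
  have hdl := dist_le_tsum_of_dist_le_of_tendsto c hdist hc hL
  have hLi : Integrable (L : X → ℝ) κ := L1.integrable_coeFn L
  have hLm : Measurable (L : X → ℝ) := (Lp.stronglyMeasurable L).measurable
  have hb : ∀ n, ∫ x, |g n x - abs (L x)| ∂κ ≤ ∑' k, c (n + k) := by
    intro n
    refine le_trans ?_ (hdl n)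
    rw [dist_eq_norm, hG]
    simp only
    conv_rhs => rw [← Integrable.toL1_coeFn L hLi]
    rw [← Integrable.toL1_sub, L1.norm_of_fun_eq_integral_norm]
    refine integral_mono ((hgi n).sub hLi.abs).abs ((hgi n).sub hLi).norm fun x => ?_
    have h2 : |g n x| = g n x := abs_of_nonneg (hg0 n x)
    have h3 := abs_abs_sub_abs_le_abs_sub (g n x) (L x)
    rw [h2] at h3
    exact h3
  set ν : Measure X := κ.withDensity fun x => ENNReal.ofReal |L x| with hν
  have hνi : ∀ f : X → ℝ, ∫ x, f x ∂ν = ∫ x, |L x| * f x ∂κ := by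
    intro f
    rw [hν, integral_withDensity_eq_integral_toReal_smul (by fun_prop) (ae_of_all _ fun x => ENNReal.ofReal_lt_top)]
    refine integral_congr_ae (ae_of_all _ fun x => ?_)
    simp only [smul_eq_mul]
    rw [ENNReal.toReal_ofReal (abs_nonneg _)]
  have hfin : IsFiniteMeasure ν := isFiniteMeasure_withDensity_ofReal hLi.abs.2
  have hTVn : ∀ n, TV (μ n) ν (∑' k, c (n + k)) := by
    intro n f hf hf1
    rw [← hint, hνi, ← integral_sub (hmul _ (hgi _) _ hf hf1) (hmul _ hLi.abs _ hf hf1)]
    refine le_trans ?_ (hb n)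
    refine (abs_integral_le_integral_abs).trans (integral_mono ?_ ((hgi n).sub hLi.abs).abs fun x => ?_)
    · exact ((hmul _ (hgi _) _ hf hf1).sub (hmul _ hLi.abs _ hf hf1)).abs
    · simp only
      rw [← sub_mul, abs_mul]
      exact mul_le_of_le_one_right (abs_nonneg _) (hf1 x)
  refine ⟨ν, ⟨?_⟩, hTVn⟩
  have h5 : ∀ n, |1 - ν.real Set.univ| ≤ ∑' k, c (n + k) := by
    intro n
    have h6 := hTVn n (fun _ => 1) measurable_const (fun x => by simp)
    simpa using h6
  have h7 : Tendsto (fun n => ∑' k, c (n + k)) atTop (𝓝 0) := by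
    have := _root_.tendsto_sum_nat_add c
    simpa [add_comm] using this
  have h8 : |1 - ν.real Set.univ| ≤ 0 := ge_of_tendsto h7 (Eventually.of_forall h5)
  have h9 : ν.real Set.univ = 1 := by
    have := abs_nonpos_iff.1 h8
    linarith
  rw [← ofReal_measureReal (measure_ne_top ν _), h9, ENNReal.ofReal_one]

end Pool.Agent.Q59.AC
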