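import Pool.Agent.Q80.AC.Stm

/-!
# Project AC: convolution powers and the exponential series (jobs POW, SERINT, SERPROB, SERAC)
-/

set_option autoImplicit false

open MeasureTheory Topology Filter
open scoped ENNReal NNReal

noncomputable section

namespace Pool.Agent.Q59.AC

open Pool.Agent.Q80.AC

variable {H : Type} [Group H] [MeasurableSpace H] [MeasurableMul₂ H]

theorem mconv_univ (μ ν : Measure H) [SFinite ν] : (μ ∗ₘ ν) Set.univ = μ Set.univ * ν Set.univ := by
  rw [Measure.mconv, Measure.map_apply measurable_mul MeasurableSet.univ, Set.preimage_univ,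
    ← Set.univ_prod_univ, Measure.prod_prod]

theorem pw_fin (σ : Measure H) [IsFiniteMeasure σ] (k : ℕ) : IsFiniteMeasure (pw σ k) := by
  induction k with
  | zero => unfold pw; infer_instance
  | succ k ih => unfold pw; infer_instance

theorem pw_univ (σ : Measure H) [IsFiniteMeasure σ] (k : ℕ) : pw σ k Set.univ = σ Set.univ ^ k := by
  induction k with
  | zero => simp [pw]
  | succ k ih =>
    have := pw_fin σ k
    rw [pw, mconv_univ, ih, pow_succ, mul_comm]

theorem pw_real (σ : Measure H) [IsFiniteMeasure σ] (k : ℕ) :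
    (pw σ k).real Set.univ = σ.real Set.univ ^ k := by
  rw [Measure.real, Measure.real, pw_univ, ENNReal.toReal_pow]

theorem pw_add (σ : Measure H) [IsFiniteMeasure σ] (k l : ℕ) : pw σ (k + l) = pw σ k ∗ₘ pw σ l := by
  have := pw_fin σ l
  induction k with
  | zero => simp [pw]
  | succ k ih =>
    have := pw_fin σ k
    rw [Nat.add_right_comm, pw, ih, pw, Measure.mconv_assoc]

theorem pw_succ (σ : Measure H) [IsFiniteMeasure σ] (k : ℕ) : pw σ (k + 1) = pw σ k ∗ₘ σ := by
  rw [pw_add]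
  congr 1
  simp [pw]

/-- job AC-POW -/
theorem t_POW : S_POW := fun _ _ _ _ σ _ => ⟨pw_fin σ, pw_real σ, pw_add σ, pw_succ σ⟩

/-! ### The exponential series -/

/-- the weights -/
def w (a t : ℝ) (k : ℕ) : ℝ := Real.exp (-(a * t)) * t ^ k / k.factorial

theorem w_nonneg {a t : ℝ} (ht : 0 ≤ t) (k : ℕ) : 0 ≤ w a t k := by unfold w; positivity

theorem hasSum_exp' (x : ℝ) : HasSum (fun k : ℕ => x ^ k / k.factorial) (Real.exp x) := by
  rw [Real.exp_eq_exp_ℝ]
  exact NormedSpace.expSeries_div_hasSum_exp x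

theorem hasSum_w (a t b : ℝ) : HasSum (fun k : ℕ => w a t k * b ^ k) (Real.exp ((b - a) * t)) := by
  have h := (hasSum_exp' (t * b)).mul_left (Real.exp (-(a * t)))
  rw [← Real.exp_add, show -(a * t) + t * b = (b - a) * t by ring] at h
  have e : (fun k : ℕ => w a t k * b ^ k) = fun i : ℕ => Real.exp (-(a * t)) * ((t * b) ^ i / i.factorial) := by
    funext k
    unfold w
    rw [mul_pow]
    ring
  rw [e]
  exact h

theorem ser_eq (σ : Measure H) (a t : ℝ) :
    ser σ a t = Measure.sum fun k : ℕ => ENNReal.ofReal (w a t k) • pw σ k := rfl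

theorem ser_univ (σ : Measure H) [IsFiniteMeasure σ] (a : ℝ) {t : ℝ} (ht : 0 ≤ t) :
    ser σ a t Set.univ = ENNReal.ofReal (Real.exp ((σ.real Set.univ - a) * t)) := by
  rw [ser_eq, Measure.sum_apply _ MeasurableSet.univ]
  have h := hasSum_w a t (σ.real Set.univ)
  rw [← h.tsum_eq, ENNReal.ofReal_tsum_of_nonneg (fun k => mul_nonneg (w_nonneg ht k) (by positivity)) h.summable]
  refine tsum_congr fun k => ?_
  rw [Measure.smul_apply, pw_univ, smul_eq_mul, ENNReal.ofReal_mul (w_nonneg ht k),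
    ENNReal.ofReal_pow (by positivity)]
  congr 2
  exact (ofReal_measureReal (measure_ne_top σ _)).symm

theorem ser_fin (σ : Measure H) [IsFiniteMeasure σ] (a : ℝ) {t : ℝ} (ht : 0 ≤ t) : IsFiniteMeasure (ser σ a t) :=
  ⟨by rw [ser_univ σ a ht]; exact ENNReal.ofReal_lt_top⟩

theorem ser_int (σ : Measure H) [IsFiniteMeasure σ] (a : ℝ) {t : ℝ} (ht : 0 ≤ t) {f : H → ℝ} {C : ℝ}
    (hf : Measurable f) (hC : ∀ x, |f x| ≤ C) :
    HasSum (fun k : ℕ => w a t k * ∫ x, f x ∂(pw σ k)) (∫ x, f x ∂(ser σ a t)) := by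
  have := ser_fin σ a ht
  have hi : Integrable f (ser σ a t) :=
    Integrable.of_bound hf.aestronglyMeasurable C (ae_of_all _ fun x => hC x)
  have h := hasSum_integral_measure (μ := fun k : ℕ => ENNReal.ofReal (w a t k) • pw σ k) (f := f) hi
  have e : (fun k : ℕ => w a t k * ∫ x, f x ∂(pw σ k)) = fun k : ℕ => ∫ x, f x ∂(ENNReal.ofReal (w a t k) • pw σ k) := by
    funext k
    rw [integral_smul_measure, ENNReal.toReal_ofReal (w_nonneg ht k), smul_eq_mul]
  rw [e]
  exact h

/-- job AC-SERINT -/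
theorem t_SERINT : S_SERINT := fun _ _ _ _ σ _ a _ ht =>
  ⟨ser_fin σ a ht, fun _ _ hf hC => ser_int σ a ht hf hC⟩

/-- job AC-SERPROB -/
theorem t_SERPROB : S_SERPROB := by
  intro H _ _ _ σ _ t ht
  refine ⟨⟨?_⟩, ?_⟩
  · rw [ser_univ σ _ ht]
    simp
  · ext s hs
    rw [ser_eq, Measure.sum_apply _ hs, tsum_eq_single 0]
    · simp [w, pw]
    · intro k hk
      simp [w, hk]

/-- job AC-SERAC -/
theorem t_SERAC : S_SERAC := by
  intro H _ _ _ m _ _ σ _ a t ht hσ A hA
  have hA' : m (toMeasurable m A) = 0 := by rw [measure_toMeasurable, hA]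
  refine (measure_mono (subset_toMeasurable m A)).trans ?_
  rw [ser_eq, Measure.sum_apply _ (measurableSet_toMeasurable m A), tsum_eq_single 0]
  · rw [Measure.smul_apply, smul_eq_mul]
    have h0 : pw σ 0 (toMeasurable m A) ≤ 1 := by
      rw [pw]
      exact prob_le_one
    calc ENNReal.ofReal (w a t 0) * pw σ 0 (toMeasurable m A) ≤ ENNReal.ofReal (w a t 0) * 1 := by gcongr
      _ = ENNReal.ofReal (Real.exp (-(a * t))) := by simp [w]
  · intro k hk
    obtain ⟨k, rfl⟩ := Nat.exists_eq_succ_of_ne_zero hk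
    rw [Measure.smul_apply, Nat.succ_eq_add_one, pw_succ, smul_eq_mul]
    rw [Measure.mconv_absolutelyContinuous hσ hA', mul_zero]

end Pool.Agent.Q59.AC
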