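import Pool.Agent.Q59.AC.CONV
import Pool.Agent.Q59.AC.LIM

/-!
# Project AC: the limit semigroup (jobs CONV, SG, ACL, WCL)
-/

set_option autoImplicit false

open MeasureTheory Topology Filter
open scoped ENNReal NNReal

noncomputable section

namespace Pool.Agent.Q59.AC

open Pool.Agent.Q80.AC

section basic

variable {H : Type} [Group H] [MeasurableSpace H]

theorem sg_succ (ρ : ℕ → Measure H) (n : ℕ) : sg ρ (n + 1) = sg ρ n + ρ n := Finset.sum_range_succ _ _

theorem sg_zero (ρ : ℕ → Measure H) : sg ρ 0 = 0 := Finset.sum_range_zero _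

theorem sg_fin {ρ : ℕ → Measure H} (hρ : ∀ n, IsProbabilityMeasure (ρ n)) (n : ℕ) : IsFiniteMeasure (sg ρ n) := by
  induction n with
  | zero => rw [sg_zero]; infer_instance
  | succ n ih => rw [sg_succ]; infer_instance

theorem sg_real {ρ : ℕ → Measure H} (hρ : ∀ n, IsProbabilityMeasure (ρ n)) (n : ℕ) :
    (sg ρ n).real Set.univ = n := by
  induction n with
  | zero => rw [sg_zero]; simp
  | succ n ih =>
    have := sg_fin hρ n
    rw [sg_succ, measureReal_add_apply, ih, probReal_univ]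
    push_cast
    ring

end basic

theorem TV_refl {X : Type} [MeasurableSpace X] (μ : Measure X) : TV μ μ 0 := fun f _ _ => by simp

theorem TV_symm {X : Type} [MeasurableSpace X] {μ ν : Measure X} {c : ℝ} (h : TV μ ν c) : TV ν μ c :=
  fun f hf hf1 => by rw [abs_sub_comm]; exact h f hf hf1

theorem TV_trans {X : Type} [MeasurableSpace X] {μ ν ρ : Measure X} {c d : ℝ} (h : TV μ ν c) (h' : TV ν ρ d) :
    TV μ ρ (c + d) := fun f hf hf1 => (abs_sub_le _ (∫ x, f x ∂ν) _).trans (add_le_add (h f hf hf1) (h' f hf hf1))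

theorem TV_real {X : Type} [MeasurableSpace X] {μ ν : Measure X} {c : ℝ} (h : TV μ ν c) {A : Set X}
    (hA : MeasurableSet A) : |μ.real A - ν.real A| ≤ c := by
  have h1 := h (A.indicator 1) (measurable_one.indicator hA) (fun x => by
    by_cases hx : x ∈ A <;> simp [hx])
  rwa [integral_indicator_one hA, integral_indicator_one hA] at h1

section main

variable {H : Type} [Group H] [MeasurableSpace H] [MeasurableMul₂ H]

theorem Pn_prob {ρ : ℕ → Measure H} (hρ : ∀ n, IsProbabilityMeasure (ρ n)) (n : ℕ) {t : ℝ} (ht : 0 ≤ t) :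
    IsProbabilityMeasure (Pn ρ n t) := by
  have := sg_fin hρ n
  have h1 := (t_SERPROB H (sg ρ n) t ht).1
  rwa [sg_real hρ n] at h1

theorem Pn_zero {ρ : ℕ → Measure H} (hρ : ∀ n, IsProbabilityMeasure (ρ n)) (n : ℕ) : Pn ρ n 0 = Measure.dirac 1 := by
  have := sg_fin hρ n
  have h1 := (t_SERPROB H (sg ρ n) 0 le_rfl).2
  rwa [sg_real hρ n] at h1

end main

/-- job AC-CONV -/
theorem t_CONV (h : S_STEP) : S_CONV := by
  intro H _ _ _ ρ hρ hTV
  have key : ∀ t : ℝ, 0 ≤ t → ∃ ν : Measure H, IsProbabilityMeasure ν ∧ (t = 0 → ν = Measure.dirac 1) ∧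
      ∃ c : ℕ → ℝ, Tendsto c atTop (𝓝 0) ∧ ∀ n, TV (Pn ρ n t) ν (c n) := by
    intro t ht
    rcases ht.eq_or_lt with h0 | h0
    · subst h0
      refine ⟨Measure.dirac 1, inferInstance, fun _ => rfl, fun _ => 0, tendsto_const_nhds, fun n => ?_⟩
      rw [Pn_zero hρ]
      exact TV_refl _
    · set c : ℕ → ℝ := fun n => 2 * Real.exp (-(n * t)) + 2 * ((1 / 2) ^ n / (n + 2)) * t * (n + 2) * Real.exp t with hc
      have hc0 : ∀ n, 0 ≤ c n := fun n => by simp only [hc]; positivity
      have hcs : Summable c := by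
        refine Summable.add ?_ ?_
        · have e : (fun n : ℕ => 2 * Real.exp (-(n * t))) = fun n : ℕ => 2 * Real.exp (-t) ^ n := by
            funext n
            rw [← Real.exp_nat_mul]
            congr 2
            ring
          rw [e]
          exact (summable_geometric_of_lt_one (Real.exp_pos _).le (Real.exp_lt_one_iff.2 (by linarith))).mul_left 2
        · have e : (fun n : ℕ => 2 * ((1 / 2 : ℝ) ^ n / (n + 2)) * t * (n + 2) * Real.exp t) =
              fun n : ℕ => (2 * t * Real.exp t) * (1 / 2 : ℝ) ^ n := by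
            funext n
            have : (n : ℝ) + 2 ≠ 0 := by positivity
            field_simp
          rw [e]
          exact summable_geometric_two.mul_left _
      have hstep : ∀ n, TV (Pn ρ (n + 1) t) (Pn ρ n t) (c n) := by
        intro n
        have := sg_fin hρ n
        have h2 := h H (sg ρ n) (ρ n) ((1 / 2) ^ n / (n + 2)) t (by positivity) ht (hTV n).1 (hTV n).2
        rw [sg_real hρ n, ← sg_succ] at h2
        unfold Pn
        push_cast
        exact h2
      obtain ⟨ν, h1, h2⟩ := t_LIM H (fun n => Pn ρ n t) (fun n => Pn_prob hρ n ht) c hc0 hcs hstep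
      refine ⟨ν, h1, fun h3 => absurd h3 h0.ne', fun n => ∑' k, c (n + k), ?_, h2⟩
      have := _root_.tendsto_sum_nat_add c
      simpa [add_comm] using this
  choose! ν h1 h2 h3 using key
  exact ⟨ν, h2 0 le_rfl rfl, h1, h3⟩

/-- job AC-SG -/
theorem t_SG (h : S_TVC) : S_SG := by
  intro H _ _ _ ρ hρ μ h0 hμ hlim
  refine ⟨hμ, h0, fun t s ht hs => ?_⟩
  have i1 := hμ t ht
  have i2 := hμ s hs
  have i3 := hμ (t + s) (add_nonneg ht hs)
  obtain ⟨c1, g1, k1⟩ := hlim t ht
  obtain ⟨c2, g2, k2⟩ := hlim s hs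
  obtain ⟨c3, g3, k3⟩ := hlim (t + s) (add_nonneg ht hs)
  have key : ∀ n, TV (μ (t + s)) (μ t ∗ₘ μ s) (c3 n + (c1 n + c2 n)) := by
    intro n
    have j1 := Pn_prob hρ n ht
    have j2 := Pn_prob hρ n hs
    have j0 := sg_fin hρ n
    have e : Pn ρ n (t + s) = Pn ρ n t ∗ₘ Pn ρ n s := t_SERADD H (sg ρ n) n t s ht hs
    have a1 := (h H (Pn ρ n t) (μ t) (Pn ρ n s) (c1 n) (k1 n)).1
    have a2 := (h H (Pn ρ n s) (μ s) (μ t) (c2 n) (k2 n)).2
    rw [probReal_univ, mul_one] at a1 a2
    have a3 := k3 n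
    rw [e] at a3
    exact TV_trans (TV_symm a3) (TV_trans a1 a2)
  have hl : Tendsto (fun n => c3 n + (c1 n + c2 n)) atTop (𝓝 0) := by
    simpa using g3.add (g1.add g2)
  ext A hA
  have h4 : |(μ (t + s)).real A - (μ t ∗ₘ μ s).real A| ≤ 0 :=
    ge_of_tendsto hl (Eventually.of_forall fun n => TV_real (key n) hA)
  have h5 := sub_eq_zero.1 (abs_nonpos_iff.1 h4)
  exact (ENNReal.toReal_eq_toReal_iff' (measure_ne_top _ _) (measure_ne_top _ _)).1 h5

/-- job AC-ACL -/
theorem t_ACL : S_ACL := by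
  intro H _ _ _ m _ _ ρ hρ hac μ hμ hlim t ht A hA
  have hA' : m (toMeasurable m A) = 0 := by rw [measure_toMeasurable, hA]
  refine measure_mono_null (subset_toMeasurable m A) ?_
  have i1 := hμ t ht.le
  obtain ⟨c, hc, hTV⟩ := hlim t ht.le
  have hsg : ∀ n, sg ρ n ≪ m := by
    intro n s hs
    unfold sg
    rw [Measure.finsetSum_apply]
    exact Finset.sum_eq_zero fun k _ => hac k hs
  have h1 : ∀ n : ℕ, (μ t).real (toMeasurable m A) ≤ Real.exp (-t) ^ n + c n := by
    intro n
    have j0 := sg_fin hρ n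
    have h2 := abs_le.1 (TV_real (hTV n) (measurableSet_toMeasurable m A))
    have h3 : (Pn ρ n t).real (toMeasurable m A) ≤ Real.exp (-t) ^ n := by
      have h4 := t_SERAC H m (sg ρ n) n t ht.le (hsg n) _ hA'
      have h5 := ENNReal.toReal_mono ENNReal.ofReal_ne_top h4
      rw [ENNReal.toReal_ofReal (Real.exp_pos _).le] at h5
      refine h5.trans (le_of_eq ?_)
      rw [← Real.exp_nat_mul]
      congr 1
      ring
    linarith [h2.1]
  have h2 : Tendsto (fun n : ℕ => Real.exp (-t) ^ n + c n) atTop (𝓝 0) := by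
    have := (tendsto_pow_atTop_nhds_zero_of_lt_one (Real.exp_pos (-t)).le (Real.exp_lt_one_iff.2 (by linarith))).add hc
    simpa using this
  have h3 := ge_of_tendsto h2 (Eventually.of_forall h1)
  have h4 : (μ t).real (toMeasurable m A) = 0 := le_antisymm h3 measureReal_nonneg
  exact (measureReal_eq_zero_iff).1 h4

/-- job AC-WCL -/
theorem t_WCL : S_WCL := by
  intro H _ _ _ _ _ _ _ _ L hLc hL2 hL1 hLs hLsep ρ hρ hρ0 μ hμ hlim
  refine t_WC H L hLc hL2 hLsep μ hμ fun j => ⟨2 * j + 4, fun t ht => ?_⟩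
  have i1 := hμ t ht
  have hb : ∀ x, |L j x| ≤ 2 := fun x => by rw [abs_of_nonneg (hL2 j x).1]; exact (hL2 j x).2
  have hLm : Measurable (L j) := (hLc j).measurable
  have hk : ∀ k : ℕ, ∫ x, L j x ∂(ρ k) ≤ (1 / 2) ^ k + if k ≤ j then 2 else 0 := by
    intro k
    split_ifs with hkj
    · have h1 : ∫ x, L j x ∂(ρ k) ≤ ∫ _x, (2 : ℝ) ∂(ρ k) :=
        integral_mono (int_bdC hLm hb) (integrable_const _) fun x => (hL2 j x).2
      rw [integral_const, probReal_univ, one_smul] at h1
      have h2 : (0 : ℝ) < (1 / 2) ^ k := by positivity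
      linarith
    · have hae : ∀ᵐ x ∂(ρ k), L j x ≤ (1 / 2) ^ k := by
        have h2 : ∀ᵐ x ∂(ρ k), x ∈ {x | ∀ j, j ≤ k → L j x ≤ (1 / 2) ^ k} := hρ0 k (by omega)
        filter_upwards [h2] with x hx
        exact hx j (by omega)
      have h1 : ∫ x, L j x ∂(ρ k) ≤ ∫ _x, ((1 / 2 : ℝ) ^ k) ∂(ρ k) :=
        integral_mono_ae (int_bdC hLm hb) (integrable_const _) hae
      rw [integral_const, probReal_univ, one_smul] at h1
      linarith
  have hsum : ∀ n, ∫ x, L j x ∂(sg ρ n) ≤ 2 * j + 4 := by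
    intro n
    unfold sg
    rw [integral_finsetSum_measure fun k _ => int_bdC hLm hb]
    refine (Finset.sum_le_sum fun k _ => hk k).trans ?_
    rw [Finset.sum_add_distrib, ← Finset.sum_filter, Finset.sum_const, nsmul_eq_mul]
    have h1 := sum_geometric_two_le n
    have h2 : ((Finset.range n).filter fun k => k ≤ j).card ≤ j + 1 := by
      have h3 : ((Finset.range n).filter fun k => k ≤ j) ⊆ Finset.range (j + 1) := fun k hk => by
        rw [Finset.mem_filter] at hk
        exact Finset.mem_range.2 (by omega)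
      simpa using Finset.card_le_card h3
    have h4 : (((Finset.range n).filter fun k => k ≤ j).card : ℝ) ≤ j + 1 := by exact_mod_cast h2
    linarith
  obtain ⟨c, hc, hTV⟩ := hlim t ht
  have h1 : ∀ n, ∫ x, L j x ∂(μ t) ≤ (2 * j + 4) * t + 2 * c n := by
    intro n
    have j0 := sg_fin hρ n
    have h2 := t_LENINT H (sg ρ n) (L j) hLm (hL2 j) (hL1 j) (hLs j) t ht
    rw [sg_real hρ n] at h2
    have h3 := hTV n (fun x => L j x / 2) (hLm.div_const 2) (fun x => by
      rw [abs_div, abs_of_pos (by norm_num : (0 : ℝ) < 2)]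
      linarith [hb x])
    rw [integral_div, integral_div] at h3
    have h4 := (abs_le.1 h3).1
    have h5 : ∫ x, L j x ∂(Pn ρ n t) ≤ t * (2 * j + 4) := h2.trans (mul_le_mul_of_nonneg_left (hsum n) ht)
    linarith
  have h2 : Tendsto (fun n => (2 * (j : ℝ) + 4) * t + 2 * c n) atTop (𝓝 ((2 * j + 4) * t)) := by
    simpa using (tendsto_const_nhds (x := (2 * (j : ℝ) + 4) * t)).add (hc.const_mul 2)
  exact ge_of_tendsto h2 (Eventually.of_forall h1)

end Pool.Agent.Q59.AC
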