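import Pool.Agent.Q59.AC.POW

/-!
# Project AC: the semigroup property and the shift (jobs SERADD, SHIFT)
-/

set_option autoImplicit false

open MeasureTheory Topology Filter
open scoped ENNReal NNReal

noncomputable section

namespace Pool.Agent.Q59.AC

open Pool.Agent.Q80.AC

variable {H : Type} [Group H] [MeasurableSpace H] [MeasurableMul₂ H]

theorem sum_mconv_sum (μ ν : ℕ → Measure H) [∀ k, SFinite (ν k)] :
    Measure.sum μ ∗ₘ Measure.sum ν = Measure.sum fun p : ℕ × ℕ => μ p.1 ∗ₘ ν p.2 := by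
  unfold Measure.mconv
  rw [Measure.prod_sum, Measure.map_sum (by fun_prop)]

theorem tsum_antidiag (F : ℕ × ℕ → ℝ≥0∞) : ∑' p, F p = ∑' n, ∑ p ∈ Finset.HasAntidiagonal.antidiagonal n, F p := by
  rw [← Finset.HasAntidiagonal.sigmaAntidiagonalEquivProd.tsum_eq, ENNReal.tsum_sigma']
  refine tsum_congr fun n => ?_
  rw [← Finset.tsum_subtype]
  rfl

theorem w_add (a t s : ℝ) (n : ℕ) : ∑ p ∈ Finset.HasAntidiagonal.antidiagonal n, w a t p.1 * w a s p.2 = w a (t + s) n := by
  have h1 : w a (t + s) n = Real.exp (-(a * t)) * Real.exp (-(a * s)) * ((t + s) ^ n / n.factorial) := by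
    unfold w
    rw [← Real.exp_add]
    ring_nf
  rw [h1, (Commute.all t s).add_pow', Finset.sum_div, Finset.mul_sum]
  refine Finset.sum_congr rfl fun p hp => ?_
  obtain ⟨i, j⟩ := p
  have hn : i + j = n := by simpa using hp
  subst hn
  have h2 := Nat.add_choose_mul_factorial_mul_factorial i j
  have h3 : ((i + j).factorial : ℝ) = ((i + j).choose i : ℝ) * i.factorial * j.factorial := by
    rw [← h2, Nat.choose_symm_add]; push_cast; ring
  have h4 : ((i + j).choose i : ℝ) ≠ 0 := by
    have := Nat.choose_pos (Nat.le_add_right i j)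
    positivity
  unfold w
  simp only [nsmul_eq_mul]
  rw [h3]
  field_simp

/-- job AC-SERADD -/
theorem t_SERADD : S_SERADD := by
  intro H _ _ _ σ _ a t s ht hs
  have := pw_fin σ
  rw [ser_eq, ser_eq, ser_eq, sum_mconv_sum]
  ext A hA
  rw [Measure.sum_apply _ hA, Measure.sum_apply _ hA, tsum_antidiag]
  refine tsum_congr fun n => ?_
  rw [← w_add, ENNReal.ofReal_sum_of_nonneg fun p _ => mul_nonneg (w_nonneg ht _) (w_nonneg hs _),
    Measure.smul_apply, smul_eq_mul, Finset.sum_mul]
  refine Finset.sum_congr rfl fun p hp => ?_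
  have hn : p.1 + p.2 = n := by simpa using hp
  rw [Measure.mconv_smul_left, Measure.mconv_smul_right, ← pw_add, hn, Measure.smul_apply, Measure.smul_apply,
    smul_eq_mul, smul_eq_mul, ENNReal.ofReal_mul (w_nonneg ht _), mul_assoc]

theorem mconv_sum_right (σ : Measure H) (ν : ℕ → Measure H) [∀ k, SFinite (ν k)] :
    σ ∗ₘ Measure.sum ν = Measure.sum fun p => σ ∗ₘ ν p := by
  unfold Measure.mconv
  rw [Measure.prod_sum_right, Measure.map_sum (by fun_prop)]

theorem pw_shift (σ : Measure H) [IsFiniteMeasure σ] (n : ℕ) :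
    pw (σ + Measure.dirac 1) n = Measure.sum fun j : ℕ => (n.choose j : ℝ≥0∞) • pw σ j := by
  have := pw_fin σ
  induction n with
  | zero =>
    ext A hA
    rw [Measure.sum_apply _ hA, tsum_eq_single 0]
    · simp [pw]
    · intro j hj
      simp [Nat.choose_eq_zero_of_lt (Nat.pos_of_ne_zero hj)]
  | succ n ih =>
    have h1 := pw_fin (σ + Measure.dirac 1) n
    rw [pw, Measure.add_mconv, Measure.dirac_one_mconv, ih, mconv_sum_right]
    ext A hA
    rw [Measure.add_apply, Measure.sum_apply _ hA, Measure.sum_apply _ hA, Measure.sum_apply _ hA,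
      tsum_eq_zero_add' (f := fun j : ℕ => (((n + 1).choose j : ℝ≥0∞) • pw σ j) A) ENNReal.summable,
      tsum_eq_zero_add' (f := fun j : ℕ => ((n.choose j : ℝ≥0∞) • pw σ j) A) ENNReal.summable]
    have e : ∀ j : ℕ, (((n + 1).choose (j + 1) : ℝ≥0∞) • pw σ (j + 1)) A =
        (σ ∗ₘ ((n.choose j : ℝ≥0∞) • pw σ j)) A + ((n.choose (j + 1) : ℝ≥0∞) • pw σ (j + 1)) A := by
      intro j
      rw [Measure.mconv_smul_right, Nat.choose_succ_succ, Measure.smul_apply, Measure.smul_apply, Measure.smul_apply,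
        ← pw]
      simp only [smul_eq_mul]
      push_cast
      rw [add_mul]
    simp only [e]
    rw [ENNReal.tsum_add]
    simp only [Nat.choose_zero_right]
    ring

theorem w_shift {a t : ℝ} (ht : 0 ≤ t) (j : ℕ) :
    ∑' n : ℕ, ENNReal.ofReal (w (a + 1) t n) * (n.choose j : ℝ≥0∞) = ENNReal.ofReal (w a t j) := by
  have hinj : Function.Injective (fun i : ℕ => j + i) := fun x y h => by simpa using h
  rw [← hinj.tsum_eq]
  · have h0 : ∀ i : ℕ, ENNReal.ofReal (w (a + 1) t (j + i)) * ((j + i).choose j : ℝ≥0∞) =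
        ENNReal.ofReal (w a t j * (Real.exp (-t) * (t ^ i / i.factorial))) := by
      intro i
      rw [← ENNReal.ofReal_natCast, ← ENNReal.ofReal_mul (w_nonneg ht _)]
      congr 1
      have h2 := Nat.add_choose_mul_factorial_mul_factorial j i
      have h3 : ((j + i).factorial : ℝ) = ((j + i).choose j : ℝ) * j.factorial * i.factorial := by
        rw [← h2, Nat.choose_symm_add]; push_cast; ring
      have h4 : ((j + i).choose j : ℝ) ≠ 0 := by
        have := Nat.choose_pos (Nat.le_add_right j i)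
        positivity
      unfold w
      rw [h3, show -((a + 1) * t) = -(a * t) + -t by ring, Real.exp_add, pow_add]
      field_simp
    simp only [h0]
    have h1 : HasSum (fun i : ℕ => w a t j * (Real.exp (-t) * (t ^ i / i.factorial))) (w a t j) := by
      have h := ((hasSum_exp' t).mul_left (Real.exp (-t))).mul_left (w a t j)
      rwa [← Real.exp_add, neg_add_cancel, Real.exp_zero, mul_one] at h
    rw [← ENNReal.ofReal_tsum_of_nonneg (fun i => mul_nonneg (w_nonneg ht _) (by positivity)) h1.summable, h1.tsum_eq]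
  · intro n hn
    rw [Function.mem_support] at hn
    have : j ≤ n := by
      by_contra hcon
      exact hn (by simp [Nat.choose_eq_zero_of_lt (not_le.1 hcon)])
    exact ⟨n - j, by simp [this]⟩

/-- job AC-SHIFT -/
theorem t_SHIFT : S_SHIFT := by
  intro H _ _ _ σ _ a t ht
  rw [ser_eq, ser_eq]
  ext A hA
  rw [Measure.sum_apply _ hA, Measure.sum_apply _ hA]
  have e : ∀ n : ℕ, (ENNReal.ofReal (w (a + 1) t n) • pw (σ + Measure.dirac 1) n) A =
      ∑' j : ℕ, ENNReal.ofReal (w (a + 1) t n) * (n.choose j : ℝ≥0∞) * pw σ j A := by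
    intro n
    rw [pw_shift, Measure.smul_apply, Measure.sum_apply _ hA, smul_eq_mul, ← ENNReal.tsum_mul_left]
    refine tsum_congr fun j => ?_
    rw [Measure.smul_apply, smul_eq_mul, mul_assoc]
  simp only [e]
  rw [ENNReal.tsum_comm]
  refine tsum_congr fun j => ?_
  rw [ENNReal.tsum_mul_right, w_shift ht, Measure.smul_apply, smul_eq_mul]

end Pool.Agent.Q59.AC
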