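import Pool.Agent.Q59.AC.SHIFT

/-!
# Project AC: the basic step (job STEP)
-/

set_option autoImplicit false

open MeasureTheory Topology Filter
open scoped ENNReal NNReal

noncomputable section

namespace Pool.Agent.Q59.AC

open Pool.Agent.Q80.AC

variable {H : Type} [Group H] [MeasurableSpace H] [MeasurableMul₂ H]

theorem hasSum_kw (a t b : ℝ) :
    HasSum (fun k : ℕ => (k : ℝ) * (w a t k * b ^ k)) (t * b * Real.exp ((b - a) * t)) := by
  rw [← hasSum_nat_add_iff' 1]
  have h := (hasSum_w a t b).mul_left (t * b)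
  have e : (fun k : ℕ => ((k + 1 : ℕ) : ℝ) * (w a t (k + 1) * b ^ (k + 1))) =
      fun k : ℕ => t * b * (w a t k * b ^ k) := by
    funext k
    unfold w
    rw [Nat.factorial_succ, pow_succ, pow_succ]
    push_cast
    have h1 : (k : ℝ) + 1 ≠ 0 := by positivity
    field_simp
  rw [e]
  simpa using h

theorem int_bd {μ : Measure H} [IsFiniteMeasure μ] {f : H → ℝ} (hf : Measurable f) (hf1 : ∀ x, |f x| ≤ 1) :
    Integrable f μ := Integrable.of_bound hf.aestronglyMeasurable 1 (ae_of_all _ fun x => hf1 x)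

theorem int_le {μ : Measure H} [IsFiniteMeasure μ] {f : H → ℝ} (hf1 : ∀ x, |f x| ≤ 1) :
    |∫ x, f x ∂μ| ≤ μ.real Set.univ := by
  have := norm_integral_le_of_norm_le_const (μ := μ) (f := f) (C := 1) (ae_of_all _ fun x => hf1 x)
  rwa [one_mul] at this

/-- job AC-STEP -/
theorem t_STEP (h : S_TVP) : S_STEP := by
  intro H _ _ _ σ ρ _ _ e t he ht h1 h2 f hf hf1
  set a := σ.real Set.univ with ha
  have ha0 : 0 ≤ a := measureReal_nonneg
  have hA := ser_int (σ + ρ) (a + 1) ht hf hf1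
  have hB := ser_int (σ + Measure.dirac 1) (a + 1) ht hf hf1
  rw [t_SHIFT H σ a t ht] at hB
  have hD : HasSum (fun k : ℕ => 2 * e * ((k : ℝ) * (w (a + 1) t k * (a + 2) ^ k)) + 2 * (w (a + 1) t k * 1 ^ k))
      (2 * Real.exp (-(a * t)) + 2 * e * t * (a + 2) * Real.exp t) := by
    have h3 := ((hasSum_kw (a + 1) t (a + 2)).mul_left (2 * e)).add ((hasSum_w (a + 1) t 1).mul_left 2)
    have e1 : 2 * e * (t * (a + 2) * Real.exp ((a + 2 - (a + 1)) * t)) + 2 * Real.exp ((1 - (a + 1)) * t) =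
        2 * Real.exp (-(a * t)) + 2 * e * t * (a + 2) * Real.exp t := by
      rw [show (a + 2 - (a + 1)) * t = t by ring, show (1 - (a + 1)) * t = -(a * t) by ring]
      ring
    rwa [e1] at h3
  refine (hA.sub hB).norm_le_of_bounded hD fun k => ?_
  have i1 := pw_fin (σ + ρ) k
  have i2 := pw_fin (σ + Measure.dirac 1) k
  have i3 := pw_fin ρ k
  have h3 := h H σ ρ e he h1 h2 k f hf hf1
  rw [integral_add_measure (int_bd hf hf1) (int_bd hf hf1), integral_add_measure (int_bd hf hf1) (int_bd hf hf1)] at h3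
  have h4 : |∫ x, f x ∂(Measure.dirac (1 : H))| ≤ 1 := by simpa using int_le (μ := Measure.dirac (1 : H)) hf1
  have h5 : |∫ x, f x ∂(pw ρ k)| ≤ 1 := by
    have := int_le (μ := pw ρ k) hf1
    rwa [pw_real, probReal_univ, one_pow] at this
  have h6 : |∫ x, f x ∂(pw (σ + ρ) k) - ∫ x, f x ∂(pw (σ + Measure.dirac 1) k)| ≤ 2 * k * (a + 2) ^ k * e + 2 := by
    rw [abs_le] at *
    constructor <;> linarith [h3.1, h3.2, h4.1, h4.2, h5.1, h5.2]
  have hw := w_nonneg (a := a + 1) ht k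
  rw [← mul_sub, norm_mul, Real.norm_of_nonneg hw]
  calc w (a + 1) t k * ‖∫ x, f x ∂(pw (σ + ρ) k) - ∫ x, f x ∂(pw (σ + Measure.dirac 1) k)‖
      ≤ w (a + 1) t k * (2 * k * (a + 2) ^ k * e + 2) := by
        rw [Real.norm_eq_abs]
        gcongr
    _ = _ := by ring

end Pool.Agent.Q59.AC
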